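import Pool.Agent.AND2B.Env
import Pool.Agent.Helper61_AHH.Psi

/-!
# AND2B: the concrete environment and the concrete budget

Everything is a power of the clock `s = cl k` of the stage, of the clock `sg n` of the start of the
super-stage, or of the variance `w`. The thresholds which have to grow have the form
`3 w^p - s^p - (sg n)^p`: they lie between `w^p` and `3 w^p`, they grow by `s^p (1 - th^p)` in a stage and
by `(sg n)^p - (sg (n + 1))^p` in a release phase.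
-/

set_option autoImplicit false

open scoped BigOperators NNReal Matrix

noncomputable section

namespace Pool.Agent.AHH

open Pool.Agent.BED (Tor)
open Pool.Agent.AND2B (net kap Viol Prd)
open Pool.Agent.ANP (Cfg Geo Fc)

/-- the `ε` of `Start2` -/
def es : ℝ := 1 / 10000

variable {d : ℕ}

/-- the configuration of the start -/
def cfg0 (V : AND2B.Env d) : Cfg V.X := ⟨fun _ => 0, fun _ => V.cl 0, fun _ => V.m⟩

/-- the small exponent of the form: `ka = 1 / (1000 (α + 1)²)` -/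
def ka (V : AND2B.Env d) : ℝ := 1 / (1000 * ((V.α : ℝ) + 1) ^ 2)

/-- a growing threshold: between `w^p` and `3 w^p` -/
def gr (V : AND2B.Env d) (p : ℝ) (n k : ℕ) : ℝ :=
  3 * (V.w : ℝ) ^ p - (V.cl k : ℝ) ^ p - V.sg n ^ p

/-- the environment of `AHH` -/
def toE (V : AND2B.Env d) (c C : ℝ) : Env d (2 ^ V.μ) where
  Γ := V.G
  kk := V.kk
  cl := V.cl
  th := V.th
  Dn := V.Dn
  Kn := V.Kn
  E := V.E
  e₀ := V.e₀
  L := V.L
  m₀ := V.m
  G₀ := LE.QD.rs (0 : Tor d (2 ^ V.μ) → ℝ) V.ζ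
  c₀ := c / 2
  C₀ := 2 * C
  D₀ := c * (V.w : ℝ) ^ (8 * es - 1)
  D₁ := 4 * C ^ 3 / V.w
  u₀ := 1 - 1 / (2 * C)
  Cp := H61.cpd d

/-- the thresholds at the start of the stage `k` (super-stage `n`) -/
def qq (V : AND2B.Env d) (n k : ℕ) : Num where
  del := gr V (1 / 20) n k
  mis := (V.cl k : ℝ) ^ (1 / 8 : ℝ)
  lam := 1 / 4 * (V.cl k : ℝ) ^ (-(3 / 4) : ℝ) * (2 - V.sg n ^ (1 / 400 : ℝ))
  tht := gr V (1 / 400) n k
  eps := (V.cl k : ℝ) ^ (ka V / 2) * (2 - V.sg n ^ ka V)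
  rho := gr V (ka V / 4) n k

/-- the budget -/
def bud (V : AND2B.Env d) : Bud where
  q := qq V
  thm n k := gr V (1 / 400) n k + (V.cl k : ℝ) ^ (1 / 16 : ℝ)
  inc _ k := (V.cl k : ℝ) ^ (1 / 8 - 1 / 200 : ℝ)
  inL _ _ := (1 - (V.th : ℝ)) / (8 * H61.cpd d)
  inY _ k := (V.cl k : ℝ) ^ (1 / 16 - 1 / 100 : ℝ)
  nn _ k := (V.cl k : ℝ) ^ ka V
  icR n := V.sg (n + 1) ^ (1 / 10 : ℝ)
  lR n := V.sg (n + 1) ^ (1 / 200 : ℝ)
  yR n := V.sg (n + 1) ^ (1 / 100 : ℝ)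
  nR n := V.sg (n + 1) ^ (1 / 100 : ℝ)
  tau n := V.sg (n + 1) ^ (5 * (d : ℝ))

/-- THE PREDICATES OF THE ANALYSIS -/
def Z (d : ℕ) (_a _es c C : ℝ) : Prd d where
  HS V n k T run := St (toE V c C) (bud V) n k T run
  HM V n k T₀ run₀ P T run := Md (toE V c C) (bud V) n k T₀ run₀ P T run
  HR V n T₀ run₀ P T run := Rl (toE V c C) (bud V) n T₀ run₀ P T run

/-! ### The fields -/

def IniF : Prop := AND2B.Fld Z es Prd.Ini
def BegF : Prop := AND2B.Fld Z es Prd.Beg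
def MmonF : Prop := AND2B.Fld Z es Prd.Mmon
def FloF : Prop := AND2B.Fld Z es Prd.Flo
def FinF : Prop := AND2B.Fld Z es Prd.Fin
def RbegF : Prop := AND2B.Fld Z es Prd.Rbeg
def RmonF : Prop := AND2B.Fld Z es Prd.Rmon
def KilF : Prop := AND2B.Fld Z es Prd.Kil
def RfinF : Prop := AND2B.Fld Z es Prd.Rfin
def OutF : Prop := AND2B.Fld Z es Prd.Out

/-- the assembly -/
theorem ana0 (hStb : ANI.StbStmt) (ini : IniF) (beg : BegF) (mmon : MmonF) (flo : FloF)
    (fin : FinF) (rbeg : RbegF) (rmon : RmonF) (kil : KilF) (rfin : RfinF) (out : OutF) :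
    AND2B.H16.Ana0Stmt :=
  AND2B.ana0 Z es (by norm_num [es]) (by norm_num [es]) hStb ini beg mmon flo fin rbeg rmon kil
    rfin out

/-! ### Bounds for the numbers -/

section bounds

variable (V : AND2B.Env d)

theorem cl_zero : V.cl 0 = V.w := by
  show AND2B.cl V.w V.th 0 = V.w
  unfold AND2B.cl
  rw [pow_zero, mul_one]

theorem cl_succ (k : ℕ) : V.cl (k + 1) = V.th * V.cl k := AND2B.cl_succ V.w V.th k

theorem cl_pos (hw : 0 < V.w) (hth : 0 < V.th) (k : ℕ) : 0 < V.cl k := by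
  show 0 < AND2B.cl V.w V.th k
  unfold AND2B.cl
  positivity

theorem cl_le (hth : V.th ≤ 1) (k : ℕ) : V.cl k ≤ V.w := by
  show AND2B.cl V.w V.th k ≤ V.w
  unfold AND2B.cl
  exact mul_le_of_le_one_right (zero_le) (pow_le_one₀ (zero_le) hth)

theorem cl_anti (hth : V.th ≤ 1) {j k : ℕ} (h : j ≤ k) : V.cl k ≤ V.cl j := by
  show AND2B.cl V.w V.th k ≤ AND2B.cl V.w V.th j
  unfold AND2B.cl
  exact mul_le_mul_right (pow_le_pow_of_le_one (zero_le) hth h) _

theorem sg_eq (n : ℕ) : V.sg n = (V.cl (V.kk n) : ℝ) := rfl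

/-- the growing thresholds -/
theorem gr_bd (hth : V.th ≤ 1) {p : ℝ} (hp : 0 < p) (n k : ℕ) :
    (V.w : ℝ) ^ p ≤ gr V p n k ∧ gr V p n k ≤ 3 * (V.w : ℝ) ^ p := by
  have h1 : ∀ j, (V.cl j : ℝ) ^ p ≤ (V.w : ℝ) ^ p := fun j =>
    Real.rpow_le_rpow (NNReal.coe_nonneg _) (by exact_mod_cast cl_le V hth j) hp.le
  have h2 : ∀ j, 0 ≤ (V.cl j : ℝ) ^ p := fun j => Real.rpow_nonneg (NNReal.coe_nonneg _) _
  have h3 := h1 k
  have h4 := h1 (V.kk n)
  have h5 := h2 k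
  have h6 := h2 (V.kk n)
  unfold gr
  rw [sg_eq]
  constructor <;> linarith

/-- the growth in one stage -/
theorem gr_stage (p : ℝ) (n k : ℕ) :
    gr V p n (k + 1) = gr V p n k + (V.cl k : ℝ) ^ p * (1 - (V.th : ℝ) ^ p) := by
  unfold gr
  rw [cl_succ]
  push_cast
  rw [Real.mul_rpow (NNReal.coe_nonneg _) (NNReal.coe_nonneg _)]
  ring

/-- the growth in a release phase -/
theorem gr_rel (p : ℝ) (n k : ℕ) : gr V p (n + 1) k = gr V p n k + (V.sg n ^ p - V.sg (n + 1) ^ p) := by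
  unfold gr
  ring

end bounds

end Pool.Agent.AHH
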