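import Pool.Agent.AND2B.Base
import Pool.Agent.ANP.StmtsD
import Pool.Agent.ABY.Defs
import Pool.Agent.Helper22_LTG.Fbk

/-!
# AND2B (MP_1906c1_mp): the induction statement (`HS`, `HM`, `HR` of `Ana0`)

`HS n k T run := St`: the configuration `T` at the start of the stage `k` of the super-stage `n`.
`HM n k T₀ run₀ P T run := Md`: during the stage, relative to its start `T₀`; `P` = the processed sites.
`HR n T₀ run₀ P T run := Rl`: during the release phase, `P` = the neighbourhoods of the processed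
clusters.

One potential function does the whole far / near bookkeeping: every accepted block update changes
every quantity at the node `x` by at most (increment) `* om n B x`, `om n B x = e² exp(-D(x, B)/L_n)`,
so inside a stage everything is bounded by (increment) `* Psi n P x`, `Psi n P x` = the sum of
`om n B x` over the representatives `B ∈ P` of blocks. The nodes are all the alive sites.
-/

set_option autoImplicit false

open scoped BigOperators NNReal Matrix

noncomputable section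

namespace Pool.Agent.AHH

open Pool.Agent.BED (Tor)
open Pool.Agent.LE.QF (BB KK)
open Pool.Agent.AND2B (net kap)
open Pool.Agent.ANP (Cfg Geo Fc)
open Pool.Agent.AFJ (ind LaR EE)
open Pool.Agent.ABY (vir)
open Pool.Agent.LTG (Fm Bd sT tT qd)

/-! ### The fixed data and the thresholds -/

/-- the fixed data: geometry, stages `kk`, clocks `cl`, the factor `th` of a stage, bounds `Dn`, `Kn` for
the numbers of dead sites, energy `E`, floor `e₀`, the constant `L` of the event `WL`, the first gauge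
`m₀`, the first resolvent `G₀`, bounds `c₀ ≤ Im m`, `|m| ≤ C₀`, the bond weights `D₀` (lower bound), `D₁`
(upper bound), `u₀ < 1`: the first upper node weights are `w / (1 - u₀)`, `Cp` the bound of `Psi` -/
structure Env (d M : ℕ) where
  /-- geometry -/
  Γ : Geo (Tor d M)
  /-- first stage of a super-stage -/
  kk : ℕ → ℕ
  /-- clocks -/
  cl : ℕ → ℝ≥0
  /-- the factor of a stage -/
  th : ℝ≥0
  /-- dead sites -/
  Dn : ℕ → ℕ
  /-- kills -/
  Kn : ℕ → ℕ
  /-- energy -/
  E : ℝ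
  /-- floor -/
  e₀ : ℝ
  /-- the constant of `WL` -/
  L : ℝ
  /-- first gauge -/
  m₀ : ℂ
  /-- first resolvent -/
  G₀ : Matrix (Tor d M) (Tor d M) ℂ
  /-- lower bound of the gauge -/
  c₀ : ℝ
  /-- upper bound of the gauge -/
  C₀ : ℝ
  /-- lower bond weight -/
  D₀ : ℝ
  /-- upper bond weight -/
  D₁ : ℝ
  /-- upper node weight -/
  u₀ : ℝ
  /-- the bound of the potentials -/
  Cp : ℝ

/-- six numbers: entries and gauge relative to the start of everything; mismatch of the running sites;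
`∑ |G|⁴`; the threshold of block Y; node weights of the running sites; node weights of the frozen
sites and bond weights -/
structure Num where
  /-- entries and gauge, relative to the start of everything -/
  del : ℝ
  /-- mismatch of the running sites -/
  mis : ℝ
  /-- `∑ |G|⁴` -/
  lam : ℝ
  /-- the threshold of block Y -/
  tht : ℝ
  /-- node weights of the running sites -/
  eps : ℝ
  /-- node weights of the frozen sites, bond weights -/
  rho : ℝ

/-- the budget; the arguments are `n` (super-stage) and `k` (stage) -/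
structure Bud where
  /-- the thresholds at the start of a stage -/
  q : ℕ → ℕ → Num
  /-- the threshold of block Y inside a stage -/
  thm : ℕ → ℕ → ℝ
  /-- increment of the entries by one block -/
  inc : ℕ → ℕ → ℝ
  /-- relative increment of `∑ |G|⁴` by one block -/
  inL : ℕ → ℕ → ℝ
  /-- increment of the pair of block Y by one block -/
  inY : ℕ → ℕ → ℝ
  /-- relative increment of the form by one block -/
  nn : ℕ → ℕ → ℝ
  /-- increment of the entries by one cluster -/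
  icR : ℕ → ℝ
  /-- relative increment of `∑ |G|⁴` by one cluster -/
  lR : ℕ → ℝ
  /-- increment of the pair of block Y by one cluster -/
  yR : ℕ → ℝ
  /-- relative increment of the form by one cluster -/
  nR : ℕ → ℝ
  /-- the tail of a cluster -/
  tau : ℕ → ℝ

/-! ### Potentials -/

section pot

variable {X : Type} [Fintype X] [DecidableEq X]

/-- `e² exp(-D(x, B) / L_n)`, at least `1` if `D(x, B) ≤ 2 L_n` -/
def om (Γ : Geo X) (n : ℕ) (B x : X) : ℝ := Real.exp (2 - (Γ.D x B : ℝ) / Γ.L n)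

/-- the potential of the processed blocks -/
def Psi (Γ : Geo X) (n : ℕ) (P : Finset X) (x : X) : ℝ :=
  ∑ B ∈ P with Γ.bl n B = B, om Γ n B x

/-- the potential of the processed clusters, `P` the union of their `ρ_n`-neighbourhoods -/
def Phi (Γ : Geo X) (τ : ℝ) (n : ℕ) (P : Finset X) (x : X) : ℝ :=
  ind P x + τ * ∑ y ∈ P, Real.exp (-((Γ.D x y : ℝ) / Γ.ρ n))

end pot

/-! ### Quantities of a configuration -/

section conf

variable {d M : ℕ} [NeZero M]

/-- the alive sites (the nodes) -/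
def Al (T : Cfg (Tor d M)) : Finset (Tor d M) := Finset.univ.filter fun x => 0 < T.s x

/-- the imaginary part of the gauge -/
def gg (T : Cfg (Tor d M)) (x : Tor d M) : ℝ := (T.mb x).im

/-- the node weights `k g` -/
def ww (e₀ : ℝ) (T : Cfg (Tor d M)) (x : Tor d M) : ℝ := kap e₀ T x * gg T x

/-- the form of the network between the nodes -/
def Ef (E e₀ : ℝ) (T : Cfg (Tor d M)) : Matrix (Tor d M) (Tor d M) ℝ :=
  EE (net E e₀ T) (kap e₀ T) (Al T)

/-- virtual clocks, `c` = the final clock -/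
def pv (T : Cfg (Tor d M)) (run : Finset (Tor d M)) (c : ℝ) (x : Tor d M) : ℝ :=
  ind run x * ((T.s x : ℝ) - c)

/-- final clock times `g` on the running sites -/
def pw (T : Cfg (Tor d M)) (run : Finset (Tor d M)) (c : ℝ) (x : Tor d M) : ℝ :=
  ind run x * (c * gg T x)

/-- the pair of block Y at the site `a` -/
def yy (E e₀ : ℝ) (T : Cfg (Tor d M)) (run : Finset (Tor d M)) (c : ℝ) (a : Tor d M) : ℝ :=
  ‖vir (BB (net E e₀ T)) (pv T run c) (pw T run c) a‖ +
    vir (KK (net E e₀ T)) (pv T run c) (pw T run c) a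

/-- the form bounds: `εl ≤ eb`, `εu ≤ u₀ + r` at the nodes, `D₀ (1 - r) ≤ bl`,
`D₁ ≤ bu ≤ D₁ (1 + r)` on the bonds, `r` a function on the sites (a bond is at its first site) -/
def FB (V : Env d M) (T : Cfg (Tor d M)) (eb r : Tor d M → ℝ) : Prop :=
  ∃ (εl εu : Tor d M → ℝ) (bl bu : Bd d M → ℝ),
    Fm sT tT (Al T) (ww V.e₀ T) εl εu bl bu (qd (Ef V.E V.e₀ T)) ∧
    (∀ x ∈ Al T, 0 ≤ εl x ∧ εl x ≤ eb x ∧ 0 ≤ εu x ∧ εu x ≤ V.u₀ + r x) ∧
    ∀ e, V.D₀ * (1 - r (sT e)) ≤ bl e ∧ V.D₁ ≤ bu e ∧ bu e ≤ V.D₁ * (1 + r (sT e))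

/-- bounds for the gauge at the nodes -/
def Gb (V : Env d M) (T : Cfg (Tor d M)) (δ : ℝ) : Prop :=
  ∀ x ∈ Al T, V.c₀ ≤ gg T x ∧ ‖T.mb x‖ ≤ V.C₀ ∧ ‖T.mb x - V.m₀‖ ≤ δ

/-! ### Start of a stage -/

/-- a good configuration, with the thresholds `q`; `s` is the clock of the running sites -/
structure StN (V : Env d M) (q : Num) (s : ℝ) (T : Cfg (Tor d M)) (run : Finset (Tor d M)) :
    Prop where
  /-- the gauge -/
  gau : Gb V T q.del
  /-- the running sites are alive -/
  alv : run ⊆ Al T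
  /-- the mismatch -/
  mis : ∀ x ∈ run, ‖net V.E V.e₀ T x x - T.mb x‖ ≤ q.mis
  /-- the entries between nodes -/
  ent : ∀ x ∈ Al T, ∀ y ∈ Al T, ‖net V.E V.e₀ T x y - V.G₀ x y‖ ≤ q.del
  /-- `∑_(y running) |G_xy|⁴` at the nodes -/
  lar : ∀ x ∈ Al T, LaR (net V.E V.e₀ T) run x ≤ q.lam
  /-- block Y: `|∑_(b running) s g_b G_ab²| + ∑_(b running) s g_b |G_ab|² ≤ (1 + θ) g_a` -/
  yin : ∀ a ∈ run, yy V.E V.e₀ T run s a ≤ (1 + q.tht) * gg T a
  /-- the form -/
  frm : FB V T (fun x => if x ∈ run then q.eps else q.rho) (fun _ => q.rho)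

/-- around an old site (`n = m + 1`, clock larger than `cl (kk m)`) there is no alive site with a clock
smaller than `cl (kk n)` -/
def Old (V : Env d M) (n : ℕ) (T : Cfg (Tor d M)) : Prop :=
  ∀ m, n = m + 1 → ∀ x, V.cl (V.kk m) < T.s x → ∀ y, V.Γ.D x y ≤ 3 * V.Γ.ρ m →
    T.s y = 0 ∨ V.cl (V.kk n) ≤ T.s y

/-- the dead sites are of the levels `j < n` -/
def Ded (V : Env d M) (n : ℕ) (T : Cfg (Tor d M)) : Prop :=
  ∃ dd : ℕ → Finset (Tor d M), (∀ x, T.s x = 0 → ∃ j < n, x ∈ dd j) ∧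
    ∀ j B, (dd j ∩ V.Γ.blk j B).card ≤ V.Dn j

/-- a good configuration at the start of the stage `k` (super-stage `n`) -/
structure St (V : Env d M) (b : Bud) (n k : ℕ) (T : Cfg (Tor d M)) (run : Finset (Tor d M)) :
    Prop extends StN V (b.q n k) (V.cl k) T run where
  /-- the shells of the old sites -/
  old : Old V n T
  /-- the dead sites -/
  ded : Ded V n T

/-! ### Inside a stage -/

/-- inside the stage `k`: `T₀`, `run₀` the start, `P` the processed sites -/
structure Md (V : Env d M) (b : Bud) (n k : ℕ) (T₀ : Cfg (Tor d M)) (run₀ P : Finset (Tor d M))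
    (T : Cfg (Tor d M)) (run : Finset (Tor d M)) : Prop where
  /-- the context -/
  ctx : n ≤ V.Γ.N ∧ V.kk n ≤ k ∧ k < V.kk (n + 1)
  fc0 : Fc V.Γ V.kk V.cl V.Dn n k ∅ T₀ run₀
  st0 : St V b n k T₀ run₀
  sub : run ⊆ run₀
  /-- the gauge does not change, the clocks of some running sites have been multiplied by `th` -/
  mb : T.mb = T₀.mb
  clk : ∀ x, T.s x = T₀.s x ∨ x ∈ run₀ ∧ x ∈ P ∧ T.s x = V.th * T₀.s x
  /-- the potential of the dead sites does not change -/
  ddV : ∀ x, T₀.s x = 0 → T.V x = T₀.V x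
  ent : ∀ x ∈ Al T, ∀ y ∈ Al T,
    ‖net V.E V.e₀ T x y - net V.E V.e₀ T₀ x y‖ ≤ b.inc n k * Psi V.Γ n P x
  lar : ∀ x ∈ Al T, LaR (net V.E V.e₀ T) run x ≤
    (b.q n k).lam * (1 + b.inL n k * Psi V.Γ n P x)
  yin : ∀ a ∈ run, yy V.E V.e₀ T run (V.cl (k + 1)) a ≤
    (1 + b.thm n k + b.inY n k * Psi V.Γ n P a) * gg T a
  frm : FB V T
    (fun x => (if x ∈ run then (b.q n k).eps * (ww V.e₀ T x / ww V.e₀ T₀ x) else (b.q n k).rho) +
      b.nn n k * Psi V.Γ n P x) (fun x => (b.q n k).rho + b.nn n k * Psi V.Γ n P x)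
  /-- the shells of the old sites -/
  old : Old V n T
  /-- the dead sites -/
  ded : Ded V n T

/-- THE INTERFACE WITH THE BLOCK UPDATES (FLO + FAR): the increments of one accepted update of the
block `B` (`T' = T.hf th (run ∩ blk n B) ζ`) -/
structure Inc (V : Env d M) (b : Bud) (n k : ℕ) (run : Finset (Tor d M)) (B : Tor d M)
    (T T' : Cfg (Tor d M)) : Prop where
  ent : ∀ x ∈ Al T, ∀ y ∈ Al T,
    ‖net V.E V.e₀ T' x y - net V.E V.e₀ T x y‖ ≤ b.inc n k * om V.Γ n B x
  lar : ∀ x ∈ Al T, LaR (net V.E V.e₀ T') run x ≤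
    LaR (net V.E V.e₀ T) run x + (b.q n k).lam * (b.inL n k * om V.Γ n B x)
  yin : ∀ a ∈ run, yy V.E V.e₀ T' run (V.cl (k + 1)) a ≤
    yy V.E V.e₀ T run (V.cl (k + 1)) a + b.inY n k * om V.Γ n B a * gg T a
  /-- the form: `Helper22_LTG.fbk` -/
  frm : ∀ (εl εu : Tor d M → ℝ) (bl bu : Bd d M → ℝ),
    Fm sT tT (Al T) (ww V.e₀ T) εl εu bl bu (qd (Ef V.E V.e₀ T)) →
    (∀ x ∈ Al T, 0 ≤ εl x ∧ εl x ≤ 1 / 8 ∧ 0 ≤ εu x ∧ εu x ≤ (1 + V.u₀) / 2) →
    (∀ e, V.D₀ / 2 ≤ bl e ∧ V.D₁ ≤ bu e ∧ bu e ≤ 2 * V.D₁) →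
    Fm sT tT (Al T) (ww V.e₀ T')
      (fun x => εl x * (ww V.e₀ T' x / ww V.e₀ T x) + b.nn n k * om V.Γ n B x)
      (fun x => εu x * (ww V.e₀ T' x / ww V.e₀ T x) + b.nn n k * om V.Γ n B x)
      (fun e => bl e - V.D₀ * (b.nn n k * om V.Γ n B (sT e)))
      (fun e => bu e + V.D₁ * (b.nn n k * om V.Γ n B (sT e))) (qd (Ef V.E V.e₀ T'))

/-! ### The release phase -/

/-- during the release phase of the super-stage `n`, `k = kk (n + 1)`: `T₀`, `run₀` its start, `P` the
union of the `ρ_n`-neighbourhoods of the processed clusters -/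
structure Rl (V : Env d M) (b : Bud) (n : ℕ) (T₀ : Cfg (Tor d M)) (run₀ P : Finset (Tor d M))
    (T : Cfg (Tor d M)) (run : Finset (Tor d M)) : Prop where
  /-- the context -/
  ctx : n ≤ V.Γ.N
  fc0 : Fc V.Γ V.kk V.cl V.Dn n (V.kk (n + 1)) ∅ T₀ run₀
  st0 : St V b n (V.kk (n + 1)) T₀ run₀
  sub : run ⊆ run₀ ∧ run ⊆ Al T
  /-- the gauge does not change, some sites in `P` have died, nothing else has changed -/
  mb : T.mb = T₀.mb
  chg : ∀ x, T.V x = T₀.V x ∧ T.s x = T₀.s x ∨ x ∈ P ∧ 0 < T₀.s x ∧ T.s x = 0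
  ent : ∀ x ∈ Al T, ∀ y ∈ Al T, ‖net V.E V.e₀ T x y - net V.E V.e₀ T₀ x y‖ ≤
    b.icR n * Phi V.Γ (b.tau n) n P x
  lar : ∀ x ∈ Al T, LaR (net V.E V.e₀ T) run x ≤
    (b.q n (V.kk (n + 1))).lam * (1 + b.lR n * Phi V.Γ (b.tau n) n P x)
  yin : ∀ a ∈ run, yy V.E V.e₀ T run (V.cl (V.kk (n + 1))) a ≤
    (1 + (b.q n (V.kk (n + 1))).tht + b.yR n * Phi V.Γ (b.tau n) n P a) * gg T a
  frm : FB V T
    (fun x => (if x ∈ run then (b.q n (V.kk (n + 1))).eps else (b.q n (V.kk (n + 1))).rho) +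
      b.nR n * Phi V.Γ (b.tau n) n P x)
    (fun x => (b.q n (V.kk (n + 1))).rho + b.nR n * Phi V.Γ (b.tau n) n P x)

end conf

end Pool.Agent.AHH
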