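import Pool.Agent.AHH.Z
import Pool.Agent.Helper72_AHH.RegDefs

/-!
# AHH: the weights for the regauging (fields `fin` and `rfin`)

`Wts`, `RegH`, `RegStmt` are in `Helper72_AHH/RegDefs.lean`.
-/

set_option autoImplicit false

open scoped BigOperators NNReal Matrix

noncomputable section

namespace Pool.Agent.AHH

open Pool.Agent.BED (Tor)
open Pool.Agent.AND2B (net kap)
open Pool.Agent.ANP (Cfg Geo Fc)

/-- WTS: the weights for the regauging exist. `dd` the dead sites, by levels `j < n`; `s` the clock of the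
running sites, all the clocks are at least `s`. Proof: the weighted Ward identity with a plateau function
(constant across the bonds that touch a dead site), `e o b = exp (- β φ_o b)`, `β = c' s`, `c'` small; `B o` the ball
of radius `C s^(-2)`. -/
def WtsStmt : Prop :=
  ∀ (d : ℕ) (c₀ C₀ : ℝ), 3 ≤ d → 0 < c₀ → c₀ ≤ 1 → 1 ≤ C₀ → ∃ Cw : ℝ, 1 ≤ Cw ∧
    ∀ (V : AND2B.Env d) (U : Env d (2 ^ V.μ)), Monotone V.l → U.Γ = V.G → 0 < U.e₀ → U.c₀ = c₀ →
      U.C₀ = C₀ → ∀ (T : Cfg V.X) (run : Finset V.X) (s δ : ℝ) (n : ℕ)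
      (dd : ℕ → Finset V.X), 0 < s → s ≤ 1 → (∀ x ∈ run, (T.s x : ℝ) = s) →
      (∀ x, T.s x = 0 ∨ s ≤ T.s x) → Gb U T δ →
      (∀ x ∈ run, ‖net U.E U.e₀ T x x - T.mb x‖ ≤ c₀ / 4) →
      (∀ x, T.s x = 0 → ∃ j < n, x ∈ dd j) → (∀ j B, (dd j ∩ V.G.blk j B).card ≤ V.Dn j) →
      ∑ j ∈ Finset.range n, (3 ^ d * V.Dn j : ℝ) / 2 ^ V.l j ≤ 1 / 4 →
      2 + 4 * ∑ j ∈ Finset.range n, (3 ^ d * V.Dn j : ℝ) ≤ s ^ (-2 : ℝ) →
        Wts U T run s (1 / 16) (Cw * s ^ (-Cw))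

end Pool.Agent.AHH
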